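import Pool.Agent.MWGQ.StmtsC

/-!
# MWGQ row NOG: normalisation of a run after `x ↦ x^(2n)` (period `n`)

Adapted from the period one proof of helper36 (Helper36_MWGN/NOG.lean).
-/

set_option autoImplicit false

namespace Pool.Agent.MWGQ.H2

open Pool.Agent.Helper14_MV Pool.Agent.Helper2_MV
open Pool.Agent.MWK (pre)
open Pool.Agent.MWGN (Nm WC WT Tau Ns nl sg nn nr)
open Pool.Agent.MWGQ

section
variable {β : FIC} {n : ℕ}

theorem ntr {a b c : List ℕ} (h : RR β a b) (h' : RR β b c) : RR β a c := β.trans h h'

/-- an identity in a context, right associated -/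
theorem nctl {u v : List ℕ} (A : List ℕ) (h : RR β u v) : RR β (A ++ u) (A ++ v) :=
  (RR.refl A).append h

theorem pw_one (k x : ℕ) : pw k [x] = List.replicate k x := by
  induction k with
  | zero => rfl
  | succ k ih =>
    unfold pw at ih ⊢
    rw [List.replicate_succ, List.flatten_cons, ih, List.replicate_succ]
    rfl

/-- powers -/
theorem powr (h1 : PwxStmt) (hG : Gn n β) (c : ℕ) {a b : ℕ} (ha : 2 ≤ a) (hb : 2 ≤ b)
    (hab : a ≡ b [MOD n]) : RR β (List.replicate a c) (List.replicate b c) := by
  have h := (h1 n β hG).1 [c] a b ha hb hab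
  rwa [pw_one, pw_one] at h

/-- powers of a letter which occurs before -/
theorem powd (h1 : PwxStmt) (hG : Gn n β) {A : List ℕ} {x : ℕ} (hx : x ∈ A) (R : List ℕ)
    {a b : ℕ} (ha : 1 ≤ a) (hb : 1 ≤ b) (hab : a ≡ b [MOD n]) :
    RR β (A ++ (List.replicate a x ++ R)) (A ++ (List.replicate b x ++ R)) := by
  obtain ⟨A1, A2, rfl⟩ := List.append_of_mem hx
  have h := (h1 n β hG).2.1 [x] A2 a b ha hb hab
  rw [pw_one, pw_one] at h
  have h2 := ((RR.refl (β := β) A1).append h).append (RR.refl (β := β) R)
  simpa only [List.append_assoc, List.cons_append, List.nil_append] using h2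

/-- powers commute -/
theorem pcomm (h1 : PwxStmt) (hG : Gn n β) (x C : ℕ) {a b : ℕ} (ha : 2 ≤ a) (hb : 2 ≤ b) :
    RR β (List.replicate a x ++ List.replicate b C) (List.replicate b C ++ List.replicate a x) := by
  have h := (h1 n β hG).2.2 [x] [C] a b ha hb
  rwa [pw_one, pw_one] at h

/-- powers of one letter are merged -/
theorem pmerge (h1 : PwxStmt) (hG : Gn n β) (x : ℕ) :
    RR β (List.replicate (2 * n) x ++ List.replicate (2 * n) x) (List.replicate (2 * n) x) := by
  have hp := hG.pos
  rw [← List.replicate_add]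
  refine powr h1 hG x (by omega) (by omega) ?_
  have e1 : 2 * n + 2 * n = 2 * n + n * 2 := by ring
  rw [e1]
  exact (Nat.modEq_iff_dvd' (by omega)).2 ⟨2, by omega⟩ |>.symm

/-- the substitution -/
def dl (n x : ℕ) : ℕ → List ℕ := fun c => if c = x then List.replicate (2 * n) x else [c]

theorem dl_self (x : ℕ) : dl n x x = List.replicate (2 * n) x := if_pos rfl

theorem dl_ne {x c : ℕ} (h : c ≠ x) : dl n x c = [c] := if_neg h

/-- the power of `x` if `x` occurs -/
def opt (n x : ℕ) (V : List ℕ) : List ℕ := if x ∈ V then List.replicate (2 * n) x else []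

theorem opt_cons_self (x : ℕ) (V : List ℕ) : opt n x (x :: V) = List.replicate (2 * n) x :=
  if_pos (by simp)

theorem opt_cons_ne {x d : ℕ} (h : d ≠ x) (V : List ℕ) : opt n x (d :: V) = opt n x V := by
  unfold opt
  refine if_congr ?_ rfl rfl
  simp [Ne.symm h]

/-- a power of `x` in front of the option -/
theorem opt_merge (h1 : PwxStmt) (hG : Gn n β) (x : ℕ) (V : List ℕ) :
    RR β (List.replicate (2 * n) x ++ opt n x V) (List.replicate (2 * n) x) := by
  unfold opt
  split_ifs
  · exact pmerge h1 hG x
  · rw [List.append_nil]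
    exact RR.refl _

/-- words in letters which occur before -/
theorem lemb (h1 : PwxStmt) (hG : Gn n β) {x C : ℕ} (hxC : x ≠ C) : ∀ (V A R : List ℕ), C ∈ A →
    (∀ c ∈ V, c = x ∨ c = C) → RR β (A ++ (V.flatMap (dl n x) ++ R))
      (A ++ ((List.replicate (V.count C) C ++ opt n x V) ++ R))
  | [], A, R, _, _ => by
    simp [opt]
    exact RR.refl _
  | d :: V, A, R, hC, h => by
    have hp := hG.pos
    rcases h d (by simp) with rfl | rfl
    · have ih := lemb h1 hG hxC V (A ++ List.replicate (2 * n) d) R (List.mem_append_left _ hC)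
        (fun c hc => h c (List.mem_cons_of_mem _ hc))
      rw [List.flatMap_cons, dl_self, List.count_cons_of_ne hxC, opt_cons_self]
      refine ntr (b := A ++ List.replicate (2 * n) d ++
        ((List.replicate (V.count C) C ++ opt n d V) ++ R)) ?_ ?_
      · simpa only [List.append_assoc] using ih
      rcases Nat.eq_zero_or_pos (V.count C) with h0 | h0
      · rw [h0, List.replicate_zero]
        have := ((RR.refl (β := β) A).append (opt_merge h1 hG d V)).append (RR.refl (β := β) R)
        simpa only [List.append_assoc, List.nil_append] using this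
      · set k := V.count C with hk
        have s1 := powd h1 hG (A := A ++ List.replicate (2 * n) d) (x := C)
          (List.mem_append_left _ hC) (opt n d V ++ R) (a := k) (b := k + n) h0 (by omega)
          ((Nat.modEq_iff_dvd' (by omega)).2 ⟨1, by omega⟩)
        have s2 := (((RR.refl (β := β) A).append (pcomm h1 hG d C (a := 2 * n) (b := k + n)
          (by omega) (by omega))).append (RR.refl (β := β) (opt n d V ++ R)))
        have s3 := powd h1 hG (A := A) (x := C) hC (List.replicate (2 * n) d ++ (opt n d V ++ R))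
          (a := k + n) (b := k) (by omega) h0
          ((Nat.modEq_iff_dvd' (by omega)).2 ⟨1, by omega⟩).symm
        have s4 := ((RR.refl (β := β) (A ++ List.replicate k C)).append
          (opt_merge h1 hG d V)).append (RR.refl (β := β) R)
        simp only [List.append_assoc] at s1 s2 s3 s4 ⊢
        exact ntr s1 (ntr s2 (ntr s3 s4))
    · have ih := lemb h1 hG hxC V (A ++ [d]) R (List.mem_append_left _ hC)
        (fun c hc => h c (List.mem_cons_of_mem _ hc))
      rw [List.flatMap_cons, dl_ne (Ne.symm hxC), List.count_cons_self, opt_cons_ne (Ne.symm hxC),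
        List.replicate_succ]
      simpa only [List.append_assoc, List.cons_append, List.nil_append] using ih

/-- one gap, without the normalisation of the exponent of `C` -/
theorem lema0 (h1 : PwxStmt) (hG : Gn n β) {x C : ℕ} (hxC : x ≠ C) : ∀ (U A R : List ℕ),
    (∀ c ∈ U, c = x ∨ c = C) → 2 ≤ U.count C →
      RR β (A ++ (U.flatMap (dl n x) ++ R))
        (A ++ ((List.replicate (U.count C) C ++ opt n x U) ++ R))
  | [], A, R, _, h2 => by simp at h2
  | d :: U, A, R, h, h2 => by
    have hp := hG.pos
    rcases h d (by simp) with rfl | rfl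
    · have h3 : 2 ≤ U.count C := by
        rwa [List.count_cons_of_ne hxC] at h2
      have ih := lema0 h1 hG hxC U (A ++ List.replicate (2 * n) d) R
        (fun c hc => h c (List.mem_cons_of_mem _ hc)) h3
      rw [List.flatMap_cons, dl_self, List.count_cons_of_ne hxC, opt_cons_self]
      refine ntr (b := A ++ List.replicate (2 * n) d ++
        ((List.replicate (U.count C) C ++ opt n d U) ++ R)) ?_ ?_
      · simpa only [List.append_assoc] using ih
      have s2 := (((RR.refl (β := β) A).append (pcomm h1 hG d C (a := 2 * n) (b := U.count C)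
          (by omega) h3)).append (RR.refl (β := β) (opt n d U ++ R)))
      have s4 := ((RR.refl (β := β) (A ++ List.replicate (U.count C) C)).append
          (opt_merge h1 hG d U)).append (RR.refl (β := β) R)
      simp only [List.append_assoc] at s2 s4 ⊢
      exact ntr s2 s4
    · have ih := lemb h1 hG hxC U (A ++ [d]) R (by simp)
        (fun c hc => h c (List.mem_cons_of_mem _ hc))
      rw [List.flatMap_cons, dl_ne (Ne.symm hxC), List.count_cons_self, opt_cons_ne (Ne.symm hxC),
        List.replicate_succ]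
      simpa only [List.append_assoc, List.cons_append, List.nil_append] using ih

/-- one gap -/
theorem lema (h1 : PwxStmt) (hG : Gn n β) {x C : ℕ} (hxC : x ≠ C) (U A R : List ℕ)
    (hU : ∀ c ∈ U, c = x ∨ c = C) (h2 : 2 ≤ U.count C) (h3 : U.count C ≡ 1 [MOD n]) :
      RR β (A ++ (U.flatMap (dl n x) ++ R))
        (A ++ ((List.replicate (n + 1) C ++ opt n x U) ++ R)) := by
  have hp := hG.pos
  have s1 := lema0 h1 hG hxC U A R hU h2
  have e : U.count C ≡ n + 1 [MOD n] := by
    refine h3.trans ?_
    exact (Nat.modEq_iff_dvd' (by omega)).2 ⟨1, by omega⟩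
  have s2 := ((RR.refl (β := β) A).append (powr h1 hG C h2 (by omega : 2 ≤ n + 1) e)).append
    (RR.refl (β := β) (opt n x U ++ R))
  simp only [List.append_assoc] at s1 s2 ⊢
  exact ntr s1 s2

/-- all gaps -/
theorem gaps (h1 : PwxStmt) (hG : Gn n β) (x : ℕ) (L C : ℕ → ℕ) (U : ℕ → List ℕ) :
    ∀ (r : ℕ) (A R : List ℕ), (∀ s < r, L s ≠ x) → (∀ s < r, x ≠ C s) →
    (∀ s < r, (∀ c ∈ U s, c = x ∨ c = C s) ∧ 2 ≤ (U s).count (C s) ∧
      (U s).count (C s) ≡ 1 [MOD n]) →
      RR β (A ++ (((List.range r).flatMap (fun s => L s :: U s)).flatMap (dl n x) ++ R))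
        (A ++ (bs n (sg L) (sg C) [x] (fun s => decide (x ∈ U s)) r ++ R))
  | 0, A, R, _, _, _ => RR.refl _
  | r + 1, A, R, hL, hC, hU => by
    have e1 : ((List.range (r + 1)).flatMap (fun s => L s :: U s)).flatMap (dl n x) =
        ((List.range r).flatMap (fun s => L s :: U s)).flatMap (dl n x) ++
          ([L r] ++ (U r).flatMap (dl n x)) := by
      rw [List.range_succ, List.flatMap_append, List.flatMap_append, List.flatMap_cons,
        List.flatMap_nil, List.append_nil, List.flatMap_cons, dl_ne (hL r (by omega))]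
    have e2 : bs n (sg L) (sg C) [x] (fun s => decide (x ∈ U s)) (r + 1) =
        bs n (sg L) (sg C) [x] (fun s => decide (x ∈ U s)) r ++
          ([L r] ++ (List.replicate (n + 1) (C r) ++ opt n x (U r))) := by
      unfold bs sg opt
      rw [List.range_succ, List.flatMap_append, List.flatMap_cons, List.flatMap_nil,
        List.append_nil, pw_one, pw_one]
      by_cases hxU : x ∈ U r
      · simp [hxU]
      · simp [hxU]
    rw [e1, e2]
    have s1 := lema h1 hG (hC r (by omega)) (U r)
      (A ++ (((List.range r).flatMap (fun s => L s :: U s)).flatMap (dl n x) ++ [L r])) R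
      (hU r (by omega)).1 (hU r (by omega)).2.1 (hU r (by omega)).2.2
    have s2 := gaps h1 hG x L C U r A ([L r] ++ ((List.replicate (n + 1) (C r) ++
      opt n x (U r)) ++ R))
      (fun s hs => hL s (by omega)) (fun s hs => hC s (by omega)) (fun s hs => hU s (by omega))
    simp only [List.append_assoc] at s1 s2 ⊢
    exact ntr s1 s2

/-- the tails -/
theorem tails (h1 : PwxStmt) (hG : Gn n β) (S L : ℕ → ℕ) (f : ℕ → ℕ) : ∀ (τ A : List ℕ),
    (∀ s ∈ τ, L s ∈ A) → (∀ s ∈ τ, 1 ≤ f s ∧ f s ≡ 1 [MOD n]) →
      RR β (A ++ τ.flatMap (fun s => S s :: List.replicate (f s) (L s)))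
        (A ++ τ.flatMap (fun s => sg S s ++ sg L s))
  | [], A, _, _ => RR.refl _
  | s :: τ, A, hA, hf => by
    rw [List.flatMap_cons, List.flatMap_cons]
    have s1 := powd h1 hG (A := A ++ [S s]) (x := L s) (List.mem_append_left _ (hA s (by simp)))
      (τ.flatMap (fun s => S s :: List.replicate (f s) (L s))) (a := f s) (b := 1)
      (hf s (by simp)).1 le_rfl (hf s (by simp)).2
    have s2 := tails h1 hG S L f τ (A ++ [S s, L s])
      (fun t ht => List.mem_append_left _ (hA t (List.mem_cons_of_mem _ ht)))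
      (fun t ht => hf t (List.mem_cons_of_mem _ ht))
    refine ntr (b := A ++ [S s, L s] ++ τ.flatMap (fun s => S s :: List.replicate (f s) (L s)))
      ?_ ?_
    · simpa only [List.append_assoc, List.cons_append, List.nil_append, List.replicate_one]
        using s1
    · simpa only [sg, List.append_assoc, List.cons_append, List.nil_append] using s2

theorem dl_rep (x : ℕ) (k : ℕ) : (List.replicate k x).flatMap (dl n x) =
    List.replicate (2 * n * k) x := by
  induction k with
  | zero => rfl
  | succ k ih =>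
    rw [List.replicate_succ, List.flatMap_cons, ih, dl_self, ← List.replicate_add]
    congr 1
    ring

theorem dl_id {x : ℕ} : ∀ {w : List ℕ}, x ∉ w → w.flatMap (dl n x) = w
  | [], _ => rfl
  | a :: w, h => by
    rw [List.flatMap_cons, dl_ne (fun e => h (by simp [e])),
      dl_id (fun e => h (List.mem_cons_of_mem _ e))]
    rfl

theorem mem_bs {L C : ℕ → ℕ} {x : ℕ} {s : ℕ → Bool} {r i : ℕ} (h : i < r) :
    L i ∈ bs n (sg L) (sg C) [x] s r := by
  unfold bs
  rw [List.mem_flatMap]
  exact ⟨i, List.mem_range.2 h, by simp [sg]⟩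

/-- a positive multiple of `2n` -/
theorem prep (h1 : PwxStmt) (hG : Gn n β) (x : ℕ) {i : ℕ} (hi : 1 ≤ i) :
    RR β (List.replicate (2 * n * i) x) (List.replicate (2 * n) x) := by
  have hp := hG.pos
  have h2 : 2 * n * 1 ≤ 2 * n * i := Nat.mul_le_mul_left _ hi
  refine powr h1 hG x (by omega) (by omega) ?_
  have h3 : 2 * n * i ≡ 0 [MOD n] := by
    rw [Nat.modEq_zero_iff_dvd]
    exact ⟨2 * i, by ring⟩
  have h4 : 2 * n ≡ 0 [MOD n] := by
    rw [Nat.modEq_zero_iff_dvd]
    exact ⟨2, by ring⟩
  exact h3.trans h4.symm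

end

/-- **NOG** -/
theorem nog (h1 : PwxStmt) : NogStmt := by
  intro n β hG ν τ r hN hτ i j U f hi hj hU hf
  have hp := hG.pos
  -- names
  have hN' := hN
  unfold nr at hN'
  rw [List.nodup_cons] at hN'
  obtain ⟨hxn, hN1⟩ := hN'
  have hxb : ν.b ≠ ν.x := fun e => hxn (by simp [e])
  have hxS : ∀ s ≤ r, ν.S s ≠ ν.x := fun s hs e => hxn (by
    rw [← e]
    refine List.mem_cons_of_mem _ (List.mem_append_left _ ?_)
    exact List.mem_map.2 ⟨s, List.mem_range.2 (by omega), rfl⟩)
  have hxL : ∀ s ≤ r, ν.L s ≠ ν.x := fun s hs e => hxn (by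
    rw [← e]
    refine List.mem_cons_of_mem _ (List.mem_append_right _ (List.mem_append_left _ ?_))
    exact List.mem_map.2 ⟨s, List.mem_range.2 (by omega), rfl⟩)
  have hxC : ∀ s < r, ν.x ≠ ν.C s := fun s hs e => hxn (by
    rw [e]
    refine List.mem_cons_of_mem _ (List.mem_append_right _ (List.mem_append_right _ ?_))
    exact List.mem_map.2 ⟨s, List.mem_range.2 hs, rfl⟩)
  set T := τ.flatMap (fun s => ν.S s :: List.replicate (f s) (ν.L s)) with hT
  have hxT : ν.x ∉ T := by
    rw [hT, List.mem_flatMap]
    rintro ⟨s, hs, hm⟩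
    have hs' := (hτ.2 s).1 hs
    rcases List.mem_cons.1 hm with e | e
    · exact hxS s hs' e.symm
    · exact hxL s hs' (List.eq_of_mem_replicate e).symm
  set G := (List.range r).flatMap (fun s => ν.L s :: U s) with hGdef
  have e1 : (List.replicate i ν.x ++ (G ++ ν.L r :: (List.replicate j ν.x ++
      ν.b :: T))).flatMap (fun c => if c = ν.x then List.replicate (2 * n) ν.x else [c]) =
      List.replicate (2 * n * i) ν.x ++ (G.flatMap (dl n ν.x) ++ ([ν.L r] ++
        (List.replicate (2 * n * j) ν.x ++ ([ν.b] ++ T)))) := by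
    show (List.replicate i ν.x ++ (G ++ ν.L r :: (List.replicate j ν.x ++
      ν.b :: T))).flatMap (dl n ν.x) = _
    rw [List.flatMap_append, List.flatMap_append, List.flatMap_cons, List.flatMap_append,
      List.flatMap_cons, dl_rep, dl_rep, dl_ne (hxL r le_rfl), dl_ne hxb, dl_id hxT]
  rw [e1]
  refine ntr ((prep h1 hG ν.x hi).append (RR.refl _)) ?_
  have s2 := gaps h1 hG ν.x ν.L ν.C U r (List.replicate (2 * n) ν.x) ([ν.L r] ++
    (List.replicate (2 * n * j) ν.x ++ ([ν.b] ++ T)))
    (fun s hs => hxL s (by omega)) hxC hU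
  refine ntr s2 ?_
  set B := bs n (sg ν.L) (sg ν.C) [ν.x] (fun s => decide (ν.x ∈ U s)) r with hB
  have s3 := ((RR.refl (β := β) (List.replicate (2 * n) ν.x ++ (B ++ [ν.L r]))).append
    (prep h1 hG ν.x hj)).append (RR.refl (β := β) ([ν.b] ++ T))
  refine ntr (b := List.replicate (2 * n) ν.x ++ (B ++ [ν.L r]) ++ List.replicate (2 * n) ν.x ++
    ([ν.b] ++ T)) ?_ ?_
  · simpa only [List.append_assoc] using s3
  have s4 := tails h1 hG ν.S ν.L f τ (List.replicate (2 * n) ν.x ++ (B ++ [ν.L r]) ++
    (List.replicate (2 * n) ν.x ++ [ν.b])) (fun s hs => by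
    have hs' := (hτ.2 s).1 hs
    rcases Nat.lt_or_ge s r with h | h
    · exact List.mem_append_left _ (List.mem_append_right _ (List.mem_append_left _
        (by rw [hB]; exact mem_bs h)))
    · have : s = r := by omega
      subst this
      simp) (fun s hs => hf s ((hτ.2 s).1 hs))
  unfold ws
  rw [pw_one]
  simp only [List.append_assoc, List.cons_append, List.nil_append] at s4 ⊢
  exact s4

end Pool.Agent.MWGQ.H2
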